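import Pool.Agent.T9h45.LD.Spec
import Pool.Agent.H931R2.Haxell

/-!
# Project LD, piece (T4a) (helper31): strong colourings with offsets (adapted from `T9h41/CP/Strong.lean`)
-/

set_option autoImplicit false
set_option linter.unusedSectionVars false

namespace Pool.Agent.T9h31.LD

open Finset Classical Pool.T9h45.HY Pool.T9h45.CP Pool.T9h45.LD

variable {V ι : Type} [Fintype V]

lemma cn_eq' (P : V → Prop) [DecidablePred P] : cn P = (univ.filter P).card := by
  unfold cn
  congr!

/-- partial colourings -/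
def PCol (G : SimpleGraph V) (cl : V → ι) (S : V → Prop) (lo : V → ℕ) (P : Finset V) (f : V → ℕ) : Prop :=
  (∀ v ∈ P, S v) ∧ (∀ v ∈ P, lo v ≤ f v ∧ f v < lo v + cn (fun w => S w ∧ cl w = cl v)) ∧
  ∀ u ∈ P, ∀ v ∈ P, u ≠ v → (cl u = cl v ∨ G.Adj u v) → f u ≠ f v

section

variable {G : SimpleGraph V} {cl : V → ι} {S : V → Prop} {lo : V → ℕ} {d : ℕ}

/-- the admissible partners -/
noncomputable def Wt (G : SimpleGraph V) (cl : V → ι) (S : V → Prop) (P : Finset V) (f : V → ℕ)
    (v u : V) : Finset V :=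
  univ.filter fun w => S w ∧ cl w = cl u ∧ ¬ G.Adj v w ∧
    (w ∈ P → ∀ y ∈ P, G.Adj u y → cl y ≠ cl u → f y ≠ f w)

lemma Wt_card (hd : ∀ v, S v → cn (fun w => S w ∧ G.Adj v w ∧ cl w ≠ cl v) ≤ d)
    (ha : ∀ v, S v → 4 * d ≤ cn (fun w => S w ∧ cl w = cl v)) {P : Finset V} {f : V → ℕ}
    (hP : PCol G cl S lo P f) {v u : V} (hv : S v) (hu : S u) (huv : cl u ≠ cl v) :
    2 * d ≤ (Wt G cl S P f v u).card := by
  obtain ⟨hPS, -, hPc⟩ := hP
  have hA := ha u hu
  rw [cn_eq'] at hA
  have hB1 := hd v hv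
  have hB2 := hd u hu
  rw [cn_eq'] at hB1 hB2
  obtain ⟨B, hB⟩ : ∃ B : Finset V, B = univ.filter fun w => (S w ∧ cl w = cl u) ∧ w ∈ P ∧
      ∃ y ∈ P, G.Adj u y ∧ cl y ≠ cl u ∧ f y = f w := ⟨_, rfl⟩
  have hBc : B.card ≤ d := by
    refine le_trans ?_ hB2
    have hex : ∀ w ∈ B, ∃ y ∈ P, G.Adj u y ∧ cl y ≠ cl u ∧ f y = f w := by
      intro w hw
      rw [hB] at hw
      exact (Finset.mem_filter.1 hw).2.2.2
    choose! y hy1 hy2 hy3 hy4 using hex
    refine Finset.card_le_card_of_injOn y ?_ ?_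
    · intro w hw
      have hw' := Finset.mem_coe.1 hw
      exact Finset.mem_coe.2 (Finset.mem_filter.2 ⟨Finset.mem_univ _, hPS _ (hy1 w hw'), hy2 w hw',
        hy3 w hw'⟩)
    · intro w hw w' hw' h
      have hw1 := Finset.mem_coe.1 hw
      have hw1' := Finset.mem_coe.1 hw'
      have e : f w = f w' := by rw [← hy4 w hw1, ← hy4 w' hw1', h]
      rw [hB] at hw1 hw1'
      have hw2 := (Finset.mem_filter.1 hw1).2
      have hw2' := (Finset.mem_filter.1 hw1').2
      by_contra hne
      exact hPc w hw2.2.1 w' hw2'.2.1 hne (Or.inl (hw2.1.2.trans hw2'.1.2.symm)) e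
  have hsub : (univ.filter fun w => S w ∧ cl w = cl u) ⊆
      Wt G cl S P f v u ∪ ((univ.filter fun w => S w ∧ G.Adj v w ∧ cl w ≠ cl v) ∪ B) := by
    intro w hw
    obtain ⟨-, hw1, hw2⟩ := Finset.mem_filter.1 hw
    by_cases h1 : G.Adj v w
    · refine Finset.mem_union_right _ (Finset.mem_union_left _ (Finset.mem_filter.2
        ⟨Finset.mem_univ _, hw1, h1, ?_⟩))
      rw [hw2]
      exact huv
    · by_cases h2 : w ∈ P → ∀ y ∈ P, G.Adj u y → cl y ≠ cl u → f y ≠ f w
      · exact Finset.mem_union_left _ (Finset.mem_filter.2 ⟨Finset.mem_univ _, hw1, hw2, h1, h2⟩)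
      · push Not at h2
        obtain ⟨h3, y, h4, h5, h6, h7⟩ := h2
        refine Finset.mem_union_right _ (Finset.mem_union_right _ ?_)
        rw [hB]
        exact Finset.mem_filter.2 ⟨Finset.mem_univ _, ⟨hw1, hw2⟩, h3, y, h4, h5, h6, h7⟩
  have h1 := Finset.card_le_card hsub
  have h2 := Finset.card_union_le (Wt G cl S P f v u)
    ((univ.filter fun w => S w ∧ G.Adj v w ∧ cl w ≠ cl v) ∪ B)
  have h3 := Finset.card_union_le (univ.filter fun w => S w ∧ G.Adj v w ∧ cl w ≠ cl v) B
  omega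

/-- the choice of the partners (Haxell) -/
lemma partners (hd : ∀ v, S v → cn (fun w => S w ∧ G.Adj v w ∧ cl w ≠ cl v) ≤ d)
    (ha : ∀ v, S v → 4 * d ≤ cn (fun w => S w ∧ cl w = cl v)) {P : Finset V} {f : V → ℕ}
    (hP : PCol G cl S lo P f) {v : V} (hv : S v) (U : Finset V) (hUP : U ⊆ P)
    (hUv : ∀ u ∈ U, cl u ≠ cl v) (hUi : ∀ u ∈ U, ∀ u' ∈ U, cl u = cl u' → u = u') :
    ∃ t : V → V, (∀ u ∈ U, t u ∈ Wt G cl S P f v u) ∧
      ∀ u ∈ U, ∀ u' ∈ U, u ≠ u' → ¬ G.Adj (t u) (t u') := by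
  have hUS : ∀ u ∈ U, S u := fun u hu => hP.1 u (hUP hu)
  rcases Nat.eq_zero_or_pos d with rfl | hdpos
  · have hno : ∀ x y, S x → S y → cl y ≠ cl x → ¬ G.Adj x y := by
      intro x y hx hy hxy hadj
      have h1 := hd x hx
      rw [cn_eq', Nat.le_zero, Finset.card_eq_zero] at h1
      have h2 : y ∈ (univ.filter fun w => S w ∧ G.Adj x w ∧ cl w ≠ cl x) :=
        Finset.mem_filter.2 ⟨Finset.mem_univ _, hy, hadj, hxy⟩
      rw [h1] at h2
      exact absurd h2 (Finset.notMem_empty _)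
    refine ⟨id, fun u hu => ?_, fun u hu u' hu' hne => ?_⟩
    · refine Finset.mem_filter.2 ⟨Finset.mem_univ _, hUS u hu, rfl,
        hno v u hv (hUS u hu) (hUv u hu), fun _ y hy hadj hcl => ?_⟩
      exact absurd hadj (hno u y (hUS u hu) (hP.1 y hy) hcl)
    · exact hno u u' (hUS u hu) (hUS u' hu') fun e => hne (hUi u hu u' hu' e.symm)
  · have hemb : ∀ u : {u // u ∈ U}, Nonempty (Fin (2 * d) ↪ {w // w ∈ Wt G cl S P f v u.1}) := by
      intro u
      refine Function.Embedding.nonempty_of_card_le ?_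
      rw [Fintype.card_fin, Fintype.card_coe]
      exact Wt_card hd ha hP hv (hUS u.1 u.2) (hUv u.1 u.2)
    have g : ∀ u : {u // u ∈ U}, Fin (2 * d) ↪ {w // w ∈ Wt G cl S P f v u.1} :=
      fun u => Classical.choice (hemb u)
    have hgS : ∀ (u : {u // u ∈ U}) (s : Fin (2 * d)), S (g u s).1 := fun u s =>
      (Finset.mem_filter.1 (g u s).2).2.1
    have hgc : ∀ (u : {u // u ∈ U}) (s : Fin (2 * d)), cl (g u s).1 = cl u.1 := fun u s =>
      (Finset.mem_filter.1 (g u s).2).2.2.1
    have hginj : ∀ p q : {u // u ∈ U} × Fin (2 * d), (g p.1 p.2).1 = (g q.1 q.2).1 → p = q := by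
      rintro ⟨u, s⟩ ⟨u', s'⟩ h
      have h1 : u = u' := by
        apply Subtype.ext
        apply hUi u.1 u.2 u'.1 u'.2
        rw [← hgc u s, ← hgc u' s']
        exact congrArg cl h
      subst h1
      have h2 : s = s' := (g u).injective (Subtype.ext h)
      rw [h2]
    have : Nonempty (Fin (2 * d)) := ⟨⟨0, by omega⟩⟩
    let adj : {u // u ∈ U} × Fin (2 * d) → {u // u ∈ U} × Fin (2 * d) → Prop := fun a b =>
      a.1 ≠ b.1 ∧ G.Adj (g a.1 a.2).1 (g b.1 b.2).1
    obtain ⟨f0, hf0⟩ := Pool.Agent.H931R2.Haxell.finite (I := {u // u ∈ U}) (S := Fin (2 * d))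
      (adj := adj) (fun a b h => ⟨h.1.symm, h.2.symm⟩) (by
        intro K hK Z hZ
        by_contra hcon
        push Not at hcon
        have hsub : K ×ˢ (univ : Finset (Fin (2 * d))) ⊆ Z.biUnion fun z =>
            univ.filter fun p => adj p z := by
          rintro ⟨i, s⟩ hp
          obtain ⟨hi, -⟩ := Finset.mem_product.1 hp
          obtain ⟨z, hz, h1⟩ := hcon i hi s
          exact Finset.mem_biUnion.2 ⟨z, hz, Finset.mem_filter.2 ⟨Finset.mem_univ _, h1⟩⟩
        have h1 : (K ×ˢ (univ : Finset (Fin (2 * d)))).card ≤ Z.card * d := by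
          refine (Finset.card_le_card hsub).trans (Finset.card_biUnion_le_card_mul _ _ _ ?_)
          intro z _
          have h2 := hd (g z.1 z.2).1 (hgS z.1 z.2)
          rw [cn_eq'] at h2
          refine le_trans ?_ h2
          refine Finset.card_le_card_of_injOn (fun p => (g p.1 p.2).1) ?_ ?_
          · intro p hp
            obtain ⟨-, hp1, hp2⟩ := Finset.mem_filter.1 (Finset.mem_coe.1 hp)
            refine Finset.mem_coe.2 (Finset.mem_filter.2 ⟨Finset.mem_univ _, hgS _ _, hp2.symm, ?_⟩)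
            rw [hgc, hgc]
            exact fun e => hp1 (Subtype.ext (hUi _ p.1.2 _ z.1.2 e))
          · intro p _ q _ h
            exact hginj p q h
        rw [Finset.card_product, Finset.card_univ, Fintype.card_fin] at h1
        have hKpos : 1 ≤ K.card := hK.card_pos
        have h2 : Z.card * d ≤ 2 * (K.card - 1) * d := Nat.mul_le_mul_right _ hZ
        have h3 : K.card * (2 * d) = 2 * (K.card - 1) * d + 2 * d := by
          obtain ⟨c, hc⟩ : ∃ c, K.card = c + 1 := ⟨K.card - 1, by omega⟩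
          rw [hc, Nat.add_sub_cancel]
          ring
        omega) univ
    refine ⟨fun u => if h : u ∈ U then (g ⟨u, h⟩ (f0 ⟨u, h⟩)).1 else u, fun u hu => ?_,
      fun u hu u' hu' hne => ?_⟩
    · simp only [hu, dif_pos]
      exact (g ⟨u, hu⟩ (f0 ⟨u, hu⟩)).2
    · simp only [hu, hu', dif_pos]
      intro hadj
      have hne' : (⟨u, hu⟩ : {u // u ∈ U}) ≠ ⟨u', hu'⟩ := fun e => hne (congrArg Subtype.val e)
      exact hf0 ⟨u, hu⟩ (Finset.mem_univ _) ⟨u', hu'⟩ (Finset.mem_univ _) hne' ⟨hne', hadj⟩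

/-- one more coloured vertex -/
lemma step (hlo : ∀ u v, cl u = cl v → lo u = lo v) (hd : ∀ v, S v → cn (fun w => S w ∧ G.Adj v w ∧ cl w ≠ cl v) ≤ d)
    (ha : ∀ v, S v → 4 * d ≤ cn (fun w => S w ∧ cl w = cl v)) {P : Finset V} {f : V → ℕ}
    (hP : PCol G cl S lo P f) {v : V} (hv : S v) (hvP : v ∉ P) :
    ∃ (P' : Finset V) (f' : V → ℕ), PCol G cl S lo P' f' ∧ P.card < P'.card := by
  have hP0 := hP
  obtain ⟨hPS, hPa, hPc⟩ := hP
  -- a missing colour
  obtain ⟨α, hα1, hα2⟩ : ∃ α, (lo v ≤ α ∧ α < lo v + cn (fun w => S w ∧ cl w = cl v)) ∧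
      ∀ u ∈ P, cl u = cl v → f u ≠ α := by
    have h1 : ((P.filter fun u => cl u = cl v).image f).card <
        (Finset.Ico (lo v) (lo v + cn fun w => S w ∧ cl w = cl v)).card := by
      rw [Nat.card_Ico, Nat.add_sub_cancel_left, cn_eq']
      refine Finset.card_image_le.trans_lt (Finset.card_lt_card ?_)
      rw [Finset.ssubset_iff_of_subset]
      · refine ⟨v, Finset.mem_filter.2 ⟨Finset.mem_univ _, hv, rfl⟩, fun h => ?_⟩
        exact hvP (Finset.mem_filter.1 h).1
      · intro w hw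
        obtain ⟨hw1, hw2⟩ := Finset.mem_filter.1 hw
        exact Finset.mem_filter.2 ⟨Finset.mem_univ _, hPS w hw1, hw2⟩
    obtain ⟨α, h2, h3⟩ := Finset.exists_mem_notMem_of_card_lt_card h1
    refine ⟨α, Finset.mem_Ico.1 h2, fun u hu hcu hfu => h3 ?_⟩
    exact Finset.mem_image.2 ⟨u, Finset.mem_filter.2 ⟨hu, hcu⟩, hfu⟩
  obtain ⟨U, hU⟩ : ∃ U : Finset V, U = P.filter fun u => f u = α ∧ cl u ≠ cl v := ⟨_, rfl⟩
  have hUm : ∀ u, u ∈ U ↔ u ∈ P ∧ f u = α ∧ cl u ≠ cl v := by
    intro u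
    rw [hU, Finset.mem_filter]
  have hUi : ∀ u ∈ U, ∀ u' ∈ U, cl u = cl u' → u = u' := by
    intro u hu u' hu' h
    obtain ⟨h1, h2, -⟩ := (hUm u).1 hu
    obtain ⟨h1', h2', -⟩ := (hUm u').1 hu'
    by_contra hne
    exact hPc u h1 u' h1' hne (Or.inl h) (h2.trans h2'.symm)
  obtain ⟨t, ht1, ht2⟩ := partners hd ha hP0 hv U (fun u hu => ((hUm u).1 hu).1)
    (fun u hu => ((hUm u).1 hu).2.2) hUi
  have htS : ∀ u ∈ U, S (t u) := fun u hu => (Finset.mem_filter.1 (ht1 u hu)).2.1
  have htc : ∀ u ∈ U, cl (t u) = cl u := fun u hu => (Finset.mem_filter.1 (ht1 u hu)).2.2.1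
  have htv : ∀ u ∈ U, ¬ G.Adj v (t u) := fun u hu => (Finset.mem_filter.1 (ht1 u hu)).2.2.2.1
  have htf : ∀ u ∈ U, t u ∈ P → ∀ y ∈ P, G.Adj u y → cl y ≠ cl u → f y ≠ f (t u) :=
    fun u hu => (Finset.mem_filter.1 (ht1 u hu)).2.2.2.2
  -- the exchange
  obtain ⟨τ, hτ⟩ : ∃ τ : V → V, τ = fun w => if h : ∃ u ∈ U, cl u = cl w then
      Equiv.swap h.choose (t h.choose) w else w := ⟨_, rfl⟩
  have hτ1 : ∀ u ∈ U, ∀ w, cl u = cl w → τ w = Equiv.swap u (t u) w := by
    intro u hu w h
    have hex : ∃ u ∈ U, cl u = cl w := ⟨u, hu, h⟩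
    have h1 : hex.choose = u :=
      hUi _ hex.choose_spec.1 u hu (hex.choose_spec.2.trans h.symm)
    rw [hτ]
    simp only [hex, dif_pos]
    rw [h1]
  have hτ2 : ∀ w, (¬ ∃ u ∈ U, cl u = cl w) → τ w = w := by
    intro w h
    rw [hτ]
    simp only [h, dif_neg, not_false_iff]
  have hτcl : ∀ w, cl (τ w) = cl w := by
    intro w
    by_cases h : ∃ u ∈ U, cl u = cl w
    · obtain ⟨u, hu, hw⟩ := h
      rw [hτ1 u hu w hw]
      rcases eq_or_ne w u with rfl | h1
      · rw [Equiv.swap_apply_left]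
        exact htc _ hu
      · rcases eq_or_ne w (t u) with h2 | h2
        · rw [h2, Equiv.swap_apply_right, ← hw.trans (congrArg cl h2)]
        · rw [Equiv.swap_apply_of_ne_of_ne h1 h2]
    · rw [hτ2 w h]
  have hττ : ∀ w, τ (τ w) = w := by
    intro w
    by_cases h : ∃ u ∈ U, cl u = cl w
    · obtain ⟨u, hu, hw⟩ := h
      rw [hτ1 u hu (τ w) (hw.trans (hτcl w).symm), hτ1 u hu w hw, Equiv.swap_apply_self]
    · rw [hτ2 (τ w) (by rwa [hτcl w]), hτ2 w h]
  have hτS : ∀ w, S (τ w) → S w := by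
    intro w hw
    by_cases h : ∃ u ∈ U, cl u = cl w
    · obtain ⟨u, hu, hcw⟩ := h
      rcases eq_or_ne w u with rfl | h1
      · exact hPS _ ((hUm _).1 hu).1
      · rcases eq_or_ne w (t u) with h2 | h2
        · rw [h2]
          exact htS u hu
        · rwa [hτ1 u hu w hcw, Equiv.swap_apply_of_ne_of_ne h1 h2] at hw
    · rwa [hτ2 w h] at hw
  have hτv : ∀ w, cl w = cl v → τ w = w := by
    intro w hw
    refine hτ2 w ?_
    rintro ⟨u, hu, h⟩
    exact ((hUm u).1 hu).2.2 (h.trans hw)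
  -- the positions of `α` and of the others
  have hpos1 : ∀ w, τ w ∈ P → f (τ w) = α → cl w ≠ cl v → ∃ u ∈ U, w = t u ∧ τ w = u := by
    intro w h1 h2 h3
    have hu : τ w ∈ U := (hUm _).2 ⟨h1, h2, by rw [hτcl]; exact h3⟩
    refine ⟨τ w, hu, ?_, rfl⟩
    have h4 := hτ1 (τ w) hu (τ w) rfl
    rw [hττ, Equiv.swap_apply_left] at h4
    exact h4
  have hpos2 : ∀ w, τ w ∈ P → f (τ w) ≠ α → τ w = w ∨ ∃ u ∈ U, w = u ∧ τ w = t u := by
    intro w h1 h2
    by_cases h : ∃ u ∈ U, cl u = cl w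
    · obtain ⟨u, hu, hw⟩ := h
      rcases eq_or_ne w u with h3 | h3
      · right
        refine ⟨u, hu, h3, ?_⟩
        rw [hτ1 u hu w hw, h3, Equiv.swap_apply_left]
      · rcases eq_or_ne w (t u) with h4 | h4
        · exfalso
          apply h2
          rw [hτ1 u hu w hw, h4, Equiv.swap_apply_right]
          exact ((hUm u).1 hu).2.1
        · left
          rw [hτ1 u hu w hw, Equiv.swap_apply_of_ne_of_ne h3 h4]
    · exact Or.inl (hτ2 w h)
  refine ⟨insert v (P.image τ), fun w => if w = v then α else f (τ w), ⟨?_, ?_, ?_⟩, ?_⟩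
  · intro w hw
    rcases Finset.mem_insert.1 hw with rfl | hw
    · exact hv
    · obtain ⟨z, hz, rfl⟩ := Finset.mem_image.1 hw
      refine hτS _ ?_
      rw [hττ]
      exact hPS z hz
  · intro w hw
    by_cases hwv : w = v
    · subst hwv
      simp only [if_true]
      exact hα1
    · simp only [hwv, if_false]
      obtain ⟨z, hz, rfl⟩ := Finset.mem_image.1 (Finset.mem_of_mem_insert_of_ne hw hwv)
      rw [hττ, hτcl, hlo (τ z) z (hτcl z)]
      exact hPa z hz
  · intro x hx y hy hxy hadj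
    have hxP : x ≠ v → τ x ∈ P := by
      intro h
      obtain ⟨z, hz, rfl⟩ := Finset.mem_image.1 (Finset.mem_of_mem_insert_of_ne hx h)
      rwa [hττ]
    have hyP : y ≠ v → τ y ∈ P := by
      intro h
      obtain ⟨z, hz, rfl⟩ := Finset.mem_image.1 (Finset.mem_of_mem_insert_of_ne hy h)
      rwa [hττ]
    have hτne : τ x ≠ τ y := by
      intro h
      apply hxy
      rw [← hττ x, h, hττ]
    -- the case of `v`
    have hvcase : ∀ w, w ≠ v → τ w ∈ P → (cl w = cl v ∨ G.Adj v w) → f (τ w) ≠ α := by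
      intro w hw hwP hcase hα
      by_cases hcw : cl w = cl v
      · rw [hτv w hcw] at hα hwP
        exact hα2 w hwP hcw hα
      · obtain ⟨u, hu, h1, -⟩ := hpos1 w hwP hα hcw
        apply htv u hu
        rw [← h1]
        exact hcase.resolve_left hcw
    simp only []
    by_cases hxv : x = v
    · have hyv : y ≠ v := fun h => hxy (hxv.trans h.symm)
      rw [if_pos hxv, if_neg hyv]
      intro h
      refine hvcase y hyv (hyP hyv) ?_ h.symm
      rw [hxv] at hadj
      exact hadj.imp Eq.symm id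
    · by_cases hyv : y = v
      · rw [if_neg hxv, if_pos hyv]
        intro h
        refine hvcase x hxv (hxP hxv) ?_ h
        rw [hyv] at hadj
        exact hadj.imp id SimpleGraph.Adj.symm
      · rw [if_neg hxv, if_neg hyv]
        intro h
        have hx' := hxP hxv
        have hy' := hyP hyv
        by_cases hc : cl x = cl y
        · exact hPc (τ x) hx' (τ y) hy' hτne (Or.inl (by rw [hτcl, hτcl, hc])) h
        · have hG : G.Adj x y := hadj.resolve_left hc
          by_cases hα : f (τ x) = α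
          · have hα' : f (τ y) = α := h ▸ hα
            -- neither is in the class of `v`
            have hxv' : cl x ≠ cl v := by
              intro e
              rw [hτv x e] at hα hx'
              exact hα2 x hx' e hα
            have hyv' : cl y ≠ cl v := by
              intro e
              rw [hτv y e] at hα' hy'
              exact hα2 y hy' e hα'
            obtain ⟨u, hu, h1, h2⟩ := hpos1 x hx' hα hxv'
            obtain ⟨u', hu', h1', h2'⟩ := hpos1 y hy' hα' hyv'
            have hne : u ≠ u' := by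
              intro e
              apply hτne
              rw [h2, h2', e]
            apply ht2 u hu u' hu' hne
            rw [← h1, ← h1']
            exact hG
          · have hα' : f (τ y) ≠ α := h ▸ hα
            rcases hpos2 x hx' hα with e1 | ⟨u, hu, e1, e2⟩
            · rcases hpos2 y hy' hα' with e1' | ⟨u', hu', e1', e2'⟩
              · rw [e1, e1'] at h
                rw [e1] at hx'
                rw [e1'] at hy'
                exact hPc x hx' y hy' hxy (Or.inr hG) h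
              · rw [e1, e2'] at h
                rw [e1] at hx'
                rw [e2'] at hy'
                rw [e1'] at hG hc
                exact htf u' hu' hy' x hx' hG.symm hc h
            · rcases hpos2 y hy' hα' with e1' | ⟨u', hu', e1', e2'⟩
              · rw [e2, e1'] at h
                rw [e2] at hx'
                rw [e1'] at hy'
                rw [e1] at hG hc
                exact htf u hu hx' y hy' hG (fun e => hc e.symm) h.symm
              · rw [e1, e1'] at hG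
                have hne : u ≠ u' := G.ne_of_adj hG
                obtain ⟨h1, h2, -⟩ := (hUm u).1 hu
                obtain ⟨h1', h2', -⟩ := (hUm u').1 hu'
                exact hPc u h1 u' h1' hne (Or.inr hG) (h2.trans h2'.symm)
  · have hτinj : Function.Injective τ := fun a b h => by rw [← hττ a, h, hττ]
    have hvn : v ∉ P.image τ := by
      intro h
      obtain ⟨z, hz, h1⟩ := Finset.mem_image.1 h
      apply hvP
      rw [← hτv v rfl, ← h1, hττ]
      exact hz
    rw [Finset.card_insert_of_notMem hvn, Finset.card_image_of_injective _ hτinj]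
    exact Nat.lt_succ_self _

end

/-- **T4a** -/
theorem t4a : ST4a := by
  intro V ι _ G pt lo d hlo hd ha
  obtain ⟨S, hS⟩ : ∃ S : V → Prop, S = fun _ => True := ⟨_, rfl⟩
  have hS' : ∀ v, S v := fun v => by rw [hS]; trivial
  have hd' : ∀ v, S v → cn (fun w => S w ∧ G.Adj v w ∧ pt w ≠ pt v) ≤ d := by
    intro v _
    refine le_trans (le_of_eq ?_) (hd v)
    congr 1
    funext w
    simp [hS' w]
  have hcn : ∀ v, cn (fun w => S w ∧ pt w = pt v) = cn (fun w => pt w = pt v) := by
    intro v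
    congr 1
    funext w
    simp [hS' w]
  have ha' : ∀ v, S v → 4 * d ≤ cn (fun w => S w ∧ pt w = pt v) := by
    intro v _
    rw [hcn]
    exact ha v
  have hne : ((univ : Finset (Finset V)).filter fun P => ∃ f, PCol G pt S lo P f).Nonempty :=
    ⟨∅, Finset.mem_filter.2 ⟨Finset.mem_univ _, fun _ => 0, by simp [PCol]⟩⟩
  obtain ⟨P, hP, hmax⟩ := Finset.exists_max_image _ Finset.card hne
  obtain ⟨-, f, hf⟩ := Finset.mem_filter.1 hP
  have hall : ∀ v, v ∈ P := by
    intro v
    by_contra hvP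
    obtain ⟨P', f', h1, h2⟩ := step hlo hd' ha' hf (hS' v) hvP
    have h3 := hmax P' (Finset.mem_filter.2 ⟨Finset.mem_univ _, f', h1⟩)
    omega
  refine ⟨f, fun v => ?_, fun u v huv h => hf.2.2 u (hall u) v (hall v) huv h⟩
  have := hf.2.1 v (hall v)
  rwa [hcn] at this

end Pool.Agent.T9h31.LD
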