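import Pool.Agent.T9h45.LD.Spec
import Pool.Agent.T9h95.CP.Clique
import Pool.Agent.TH559.LE.Bip

/-!
# Project LD, piece (GEN) (helper31): Galvin with general preferences + Vizing + assemble
-/

set_option autoImplicit false

namespace Pool.Agent.T9h31.LD

open Finset Classical Pool.T9h45.HY Pool.T9h45.CP Pool.T9h45.LD Pool.Q6.CI Pool.Q11.TwoEnd
open Pool.Agent.T9h95.CP (inn dg_cn cn_mono)

lemma lex_le {M a b i j : ℕ} (hj : j < M) (h : a * M + i < b * M + j) : a ≤ b := by
  by_contra hab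
  push Not at hab
  have h1 : (b + 1) * M ≤ a * M := Nat.mul_le_mul_right M hab
  have h2 : (b + 1) * M = b * M + M := by ring
  omega

lemma lex_eq {M a b i j : ℕ} (hi : i < M) (hj : j < M) (h : a * M + i = b * M + j) : i = j := by
  have h1 : a ≤ b := by
    by_contra hab
    push Not at hab
    have h1 : (b + 1) * M ≤ a * M := Nat.mul_le_mul_right M hab
    have h2 : (b + 1) * M = b * M + M := by ring
    omega
  have h2 : b ≤ a := by
    by_contra hab
    push Not at hab
    have h1 : (a + 1) * M ≤ b * M := Nat.mul_le_mul_right M hab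
    have h2 : (a + 1) * M = a * M + M := by ring
    omega
  have h3 : a = b := le_antisymm h1 h2
  subst h3
  omega

lemma cnt1 {V : Type} [Fintype V] (T : Finset (V × V)) (x : V) (P : V → Prop)
    (h : ∀ g ∈ T, g.1 = x ∧ P g.2) : T.card ≤ cn P := by
  refine Finset.card_le_card_of_injOn Prod.snd ?_ ?_
  · intro g hg
    exact Finset.mem_coe.2 (Finset.mem_filter.2 ⟨Finset.mem_univ _, (h g hg).2⟩)
  · intro g hg g' hg' hgg
    exact Prod.ext ((h g hg).1.trans (h g' hg').1.symm) hgg

lemma cnt2 {V : Type} [Fintype V] (T : Finset (V × V)) (y : V) (P : V → Prop)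
    (h : ∀ g ∈ T, g.2 = y ∧ P g.1) : T.card ≤ cn P := by
  refine Finset.card_le_card_of_injOn Prod.fst ?_ ?_
  · intro g hg
    exact Finset.mem_coe.2 (Finset.mem_filter.2 ⟨Finset.mem_univ _, (h g hg).2⟩)
  · intro g hg g' hg' hgg
    exact Prod.ext hgg ((h g hg).1.trans (h g' hg').1.symm)

/-- Galvin's theorem with preferences -/
theorem galp {V : Type} [Fintype V] (G : SimpleGraph V) (D : ℕ) (S : V → Prop)
    (f : V → ℕ) (pf : V → V → ℕ)
    (he : ∀ x y, S x → ¬ S y → G.Adj x y →
      cn (fun z => z ≠ y ∧ ¬ S z ∧ G.Adj x z ∧ pf x y ≤ pf x z) +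
      cn (fun z => z ≠ x ∧ S z ∧ G.Adj y z ∧ pf y x ≤ pf y z) + f x + f y < D) :
    ∃ c : V → V → ℕ, (∀ x y, G.Adj x y → S x → ¬ S y → f x ≤ c x y ∧ c x y + f y < D) ∧
      (∀ x y z, G.Adj x y → G.Adj x z → S x → ¬ S y → ¬ S z → y ≠ z → c x y ≠ c x z) ∧
      (∀ x y z, G.Adj z x → G.Adj z y → ¬ S z → S x → S y → x ≠ y → c x z ≠ c y z) := by
  set M := Fintype.card V with hM
  let idx : V → ℕ := fun v => (Fintype.equivFin V v : ℕ)
  have hidx : ∀ u v, idx u = idx v → u = v := fun u v h =>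
    (Fintype.equivFin V).injective (Fin.ext h)
  have hidxM : ∀ v, idx v < M := fun v => (Fintype.equivFin V v).isLt
  obtain ⟨Bd, hBd⟩ : ∃ Bd : ℕ, ∀ u v, pf u v ≤ Bd :=
    ⟨(univ : Finset (V × V)).sup (fun e => pf e.1 e.2), fun u v =>
      Finset.le_sup (f := fun e : V × V => pf e.1 e.2) (mem_univ (u, v))⟩
  let p : V × V → ℕ := fun e => pf e.1 e.2 * M + idx e.2
  let q : V × V → ℕ := fun e => (Bd - pf e.2 e.1) * M + idx e.1
  have hop : ∀ e g : V × V, e.1 = g.1 → p e = p g → e = g := fun e g h h' =>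
    Prod.ext h (hidx _ _ (lex_eq (hidxM _) (hidxM _) h'))
  have hip : ∀ e g : V × V, e.2 = g.2 → q e = q g → e = g := fun e g h h' =>
    Prod.ext (hidx _ _ (lex_eq (hidxM _) (hidxM _) h')) h
  let F : Finset (V × V) := univ.filter fun e => S e.1 ∧ ¬ S e.2 ∧ G.Adj e.1 e.2
  have hF : ∀ e, e ∈ F ↔ S e.1 ∧ ¬ S e.2 ∧ G.Adj e.1 e.2 := fun e => by simp [F]
  let L : V × V → Finset ℕ := fun e => Finset.Ico (f e.1) (D - f e.2)
  have hL : ∀ e ∈ F, (F.filter (fun g => g.1 = e.1 ∧ p e < p g)).card +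
        (F.filter (fun g => g.2 = e.2 ∧ q g < q e)).card < (L e).card := by
    rintro ⟨x, y⟩ hxy
    obtain ⟨hx, hy, hadj⟩ := (hF _).1 hxy
    have hx : S x := hx
    have hy : ¬ S y := hy
    have hadj : G.Adj x y := hadj
    have hLc : (L (x, y)).card = D - f y - f x := Nat.card_Ico _ _
    have h1 : (F.filter (fun g => g.1 = (x, y).1 ∧ p (x, y) < p g)).card ≤
        cn (fun z => z ≠ y ∧ ¬ S z ∧ G.Adj x z ∧ pf x y ≤ pf x z) := by
      refine cnt1 _ x _ ?_
      rintro ⟨a, b⟩ hg
      rw [Finset.mem_filter] at hg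
      obtain ⟨hgF, hg1, hg2⟩ := hg
      have hg1 : a = x := hg1
      subst hg1
      obtain ⟨g1, g2, g3⟩ := (hF _).1 hgF
      have g2 : ¬ S b := g2
      have g3 : G.Adj a b := g3
      refine ⟨rfl, ?_, g2, g3, ?_⟩
      · rintro h
        have h' : b = y := h
        rw [h'] at hg2
        exact lt_irrefl _ hg2
      · exact lex_le (i := idx y) (j := idx b) (hidxM _) hg2
    have h2 : (F.filter (fun g => g.2 = (x, y).2 ∧ q g < q (x, y))).card ≤
        cn (fun z => z ≠ x ∧ S z ∧ G.Adj y z ∧ pf y x ≤ pf y z) := by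
      refine cnt2 _ y _ ?_
      rintro ⟨a, b⟩ hg
      rw [Finset.mem_filter] at hg
      obtain ⟨hgF, hg1, hg2⟩ := hg
      have hg1 : b = y := hg1
      subst hg1
      obtain ⟨g1, g2, g3⟩ := (hF _).1 hgF
      have g1 : S a := g1
      have g3 : G.Adj a b := g3
      refine ⟨rfl, ?_, g1, g3.symm, ?_⟩
      · rintro h
        have h' : a = x := h
        rw [h'] at hg2
        exact lt_irrefl _ hg2
      · have h3 : Bd - pf b a ≤ Bd - pf b x :=
          lex_le (i := idx a) (j := idx x) (hidxM _) hg2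
        have h4 := hBd b a
        have h5 := hBd b x
        show pf b x ≤ pf b a
        omega
    have h3 := he x y hx hy hadj
    rw [hLc]
    omega
  obtain ⟨φ, hφ⟩ := Pool.Agent.TH559.LE.galvin (fun e : V × V => e.1) (fun e : V × V => e.2) p q
    hop hip F.card F L rfl (by
      intro e he
      convert hL e he using 3)
  refine ⟨fun x y => φ (x, y), ?_, ?_, ?_⟩
  · intro x y hxy hx hy
    have h := (hφ (x, y) ((hF _).2 ⟨hx, hy, hxy⟩)).1
    have h' : f x ≤ φ (x, y) ∧ φ (x, y) < D - f y := Finset.mem_Ico.1 h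
    refine ⟨h'.1, ?_⟩
    have := h'.2
    show φ (x, y) + f y < D
    omega
  · intro x y z hxy hxz hx hy hz hne h
    have h1 := (hφ (x, y) ((hF _).2 ⟨hx, hy, hxy⟩)).2 (x, z) ((hF _).2 ⟨hx, hz, hxz⟩)
      (fun h => hne (Prod.ext_iff.1 h).2.symm) h.symm
    exact h1.1 rfl
  · intro x y z hzx hzy hz hx hy hne h
    have h1 := (hφ (x, z) ((hF _).2 ⟨hx, hz, hzx.symm⟩)).2 (y, z) ((hF _).2 ⟨hy, hz, hzy.symm⟩)
      (fun h => hne (Prod.ext_iff.1 h).1.symm) h.symm
    exact h1.2 rfl

/-- assembling the labelling -/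
theorem asm {V : Type} [Fintype V] (G : SimpleGraph V) (S : V → Prop) (D p : ℕ) (hp : 1 ≤ p)
    (f : V → ℕ) (hf : ∀ v, f v ≤ D) (hff : ∀ u v, (S u ↔ S v) → G.Adj u v → f u ≠ f v)
    (h1 : EC (inn G S) p) (h2 : EC (inn G fun v => ¬ S v) p)
    (hc : ∃ c : V → V → ℕ, (∀ x y, G.Adj x y → S x → ¬ S y → f x ≤ c x y ∧ c x y + f y < D) ∧
      (∀ x y z, G.Adj x y → G.Adj x z → S x → ¬ S y → ¬ S z → y ≠ z → c x y ≠ c x z) ∧
      (∀ x y z, G.Adj z x → G.Adj z y → ¬ S z → S x → S y → x ≠ y → c x z ≠ c y z)) :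
    Lb G p (D + 2 * p) := by
  obtain ⟨e1, he1⟩ := h1
  obtain ⟨e2, he2⟩ := h2
  obtain ⟨c, hc1, hc2, hc3⟩ := hc
  refine ⟨fun v => if S v then f v else D + 2 * p - 1 - f v,
    fun x y => if S x then (if S y then D + p + e1 x y else p + c x y) else
      (if S y then p + c y x else e2 x y), ?_, ?_, ?_, ?_, ?_, ?_⟩
  · intro v
    have := hf v
    show (if S v then f v else D + 2 * p - 1 - f v) < D + 2 * p
    split_ifs <;> omega
  · intro v w h
    show (if S v then (if S w then D + p + e1 v w else p + c v w) else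
      (if S w then p + c w v else e2 v w)) < D + 2 * p
    by_cases hv : S v <;> by_cases hw : S w
    · rw [if_pos hv, if_pos hw]
      have := he1.lt v w ⟨h, hv, hw⟩
      omega
    · rw [if_pos hv, if_neg hw]
      have := hc1 v w h hv hw
      omega
    · rw [if_neg hv, if_pos hw]
      have := hc1 w v h.symm hw hv
      omega
    · rw [if_neg hv, if_neg hw]
      have := he2.lt v w ⟨h, hv, hw⟩
      omega
  · intro v w h
    show (if S v then (if S w then D + p + e1 v w else p + c v w) else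
      (if S w then p + c w v else e2 v w)) = (if S w then (if S v then D + p + e1 w v else p + c w v) else
      (if S v then p + c v w else e2 w v))
    by_cases hv : S v <;> by_cases hw : S w
    · rw [if_pos hv, if_pos hw, if_pos hw, if_pos hv, he1.symm v w ⟨h, hv, hw⟩]
    · rw [if_pos hv, if_neg hw, if_neg hw, if_pos hv]
    · rw [if_neg hv, if_pos hw, if_pos hw, if_neg hv]
    · rw [if_neg hv, if_neg hw, if_neg hw, if_neg hv, he2.symm v w ⟨h, hv, hw⟩]
  · intro v w h
    show (if S v then f v else D + 2 * p - 1 - f v) ≠ (if S w then f w else D + 2 * p - 1 - f w)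
    have h3 := hf v
    have h4 := hf w
    by_cases hv : S v <;> by_cases hw : S w
    · rw [if_pos hv, if_pos hw]
      exact hff v w ⟨fun _ => hw, fun _ => hv⟩ h
    · rw [if_pos hv, if_neg hw]
      have := hc1 v w h hv hw
      omega
    · rw [if_neg hv, if_pos hw]
      have := hc1 w v h.symm hw hv
      omega
    · rw [if_neg hv, if_neg hw]
      have := hff v w ⟨fun h => absurd h hv, fun h => absurd h hw⟩ h
      omega
  · intro u v w huv huw hne
    show (if S u then (if S v then D + p + e1 u v else p + c u v) else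
      (if S v then p + c v u else e2 u v)) ≠ (if S u then (if S w then D + p + e1 u w else p + c u w) else
      (if S w then p + c w u else e2 u w))
    by_cases hu : S u <;> by_cases hv : S v <;> by_cases hw : S w
    · rw [if_pos hu, if_pos hv, if_pos hu, if_pos hw]
      intro h
      exact hne (he1.inj u v w ⟨huv, hu, hv⟩ ⟨huw, hu, hw⟩ (by omega))
    · rw [if_pos hu, if_pos hv, if_pos hu, if_neg hw]
      have := hc1 u w huw hu hw
      omega
    · rw [if_pos hu, if_neg hv, if_pos hu, if_pos hw]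
      have := hc1 u v huv hu hv
      omega
    · rw [if_pos hu, if_neg hv, if_pos hu, if_neg hw]
      have := hc2 u v w huv huw hu hv hw hne
      omega
    · rw [if_neg hu, if_pos hv, if_neg hu, if_pos hw]
      have := hc3 v w u huv huw hu hv hw hne
      omega
    · rw [if_neg hu, if_pos hv, if_neg hu, if_neg hw]
      have := he2.lt u w ⟨huw, hu, hw⟩
      omega
    · rw [if_neg hu, if_neg hv, if_neg hu, if_pos hw]
      have := he2.lt u v ⟨huv, hu, hv⟩
      omega
    · rw [if_neg hu, if_neg hv, if_neg hu, if_neg hw]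
      intro h
      exact hne (he2.inj u v w ⟨huv, hu, hv⟩ ⟨huw, hu, hw⟩ h)
  · intro v w h
    have h3 := hf v
    show (p : ℤ) ≤ |((if S v then f v else D + 2 * p - 1 - f v : ℕ) : ℤ) -
      ((if S v then (if S w then D + p + e1 v w else p + c v w) else
      (if S w then p + c w v else e2 v w) : ℕ) : ℤ)|
    by_cases hv : S v <;> by_cases hw : S w
    · rw [if_pos hv, if_pos hv, if_pos hw]
      exact far (by omega)
    · rw [if_pos hv, if_pos hv, if_neg hw]
      have := hc1 v w h hv hw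
      exact far (by omega)
    · rw [if_neg hv, if_neg hv, if_pos hw]
      have := hc1 w v h.symm hw hv
      rw [abs_sub_comm]
      exact far (by omega)
    · rw [if_neg hv, if_neg hv, if_neg hw]
      have := he2.lt v w ⟨h, hv, hw⟩
      rw [abs_sub_comm]
      exact far (by omega)

/-- **GEN** -/
theorem gen : SGen := by
  intro V _ G D p S f pf hp hf hff hdeg he
  have hdS : ∀ v, dg (inn G S) v ≤ p - 1 := by
    intro v
    rw [dg_cn]
    have h1 : cn (fun w => (inn G S).Adj v w) ≤ cn (fun w => G.Adj v w ∧ (S w ↔ S v)) :=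
      cn_mono fun w hw => ⟨hw.1, ⟨fun _ => hw.2.1, fun _ => hw.2.2⟩⟩
    have h2 := hdeg v
    omega
  have hdN : ∀ v, dg (inn G fun v => ¬ S v) v ≤ p - 1 := by
    intro v
    rw [dg_cn]
    have h1 : cn (fun w => (inn G fun v => ¬ S v).Adj v w) ≤
        cn (fun w => G.Adj v w ∧ (S w ↔ S v)) :=
      cn_mono fun w hw => ⟨hw.1, ⟨fun h => absurd h hw.2.2, fun h => absurd h hw.2.1⟩⟩
    have h2 := hdeg v
    omega
  have hE1 : EC (inn G S) p := by
    have := vizing hdS
    rwa [Nat.sub_add_cancel hp] at this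
  have hE2 : EC (inn G fun v => ¬ S v) p := by
    have := vizing hdN
    rwa [Nat.sub_add_cancel hp] at this
  exact asm G S D p hp f hf (fun u v h1 h2 => hff u v h2 h1) hE1 hE2 (galp G D S f pf he)

end Pool.Agent.T9h31.LD
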